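import Pool.Agent.H607R3.PS.Stmts

set_option autoImplicit false

namespace Pool.Agent.H607R3.PS

open IsLocalRing

theorem taskLoc : TaskLoc := by
  intro T _ _ α β γ hα hβ hγ
  have hnt : Nontrivial (RR T α β γ) := ⟨⟨0, 1, fun h => by
    have := congrArg RR.a h
    simp at this⟩⟩
  have key : ∀ u : RR T α β γ, IsUnit u.a → IsUnit u := by
    intro u hu
    obtain ⟨a', ha'⟩ := hu.exists_right_inv
    set p := u.a + α * u.b + γ * u.c with hp
    set q := γ * u.b with hq
    set r := β * u.b with hr
    set s := u.a + γ * u.c with hs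
    have hΔ : IsUnit (p * s - q * r) := by
      by_contra hcon
      have h1 : p * s - q * r ∈ maximalIdeal T := (mem_maximalIdeal _).mpr hcon
      have h2 : u.a ^ 2 ∈ maximalIdeal T := by
        have e : u.a ^ 2 = (p * s - q * r) - (α * (u.b * s) + γ * (u.c * s + u.a * u.c - u.b * r)) := by
          rw [hp, hs, hq]; ring
        rw [e]
        exact Ideal.sub_mem _ h1 (Ideal.add_mem _ (Ideal.mul_mem_right _ _ hα)
          (Ideal.mul_mem_right _ _ hγ))
      exact (mem_maximalIdeal _).mp h2 (hu.pow 2)
    obtain ⟨d, hd⟩ := hΔ.exists_right_inv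
    let v : RR T α β γ := ⟨a', d * (-(u.b * a' * s) + u.c * a' * q), d * (-(u.c * a' * p) + u.b * a' * r)⟩
    refine IsUnit.of_mul_eq_one v ?_
    ext
    · simp [v, ha']
    · simp only [RR.mul_b, RR.one_b, v]
      linear_combination (-(u.b * a')) * hd
    · simp only [RR.mul_c, RR.one_c, v]
      linear_combination (-(u.c * a')) * hd
  have key2 : ∀ u : RR T α β γ, IsUnit u → IsUnit u.a := by
    intro u hu
    obtain ⟨v, hv⟩ := hu.exists_right_inv
    have := congrArg RR.a hv
    simp only [RR.mul_a, RR.one_a] at this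
    exact IsUnit.of_mul_eq_one _ this
  apply IsLocalRing.of_nonunits_add
  intro u v hu hv h
  have h1 := key2 _ h
  rw [RR.add_a] at h1
  rcases IsLocalRing.isUnit_or_isUnit_of_isUnit_add h1 with h2 | h2
  · exact hu (key u h2)
  · exact hv (key v h2)

end Pool.Agent.H607R3.PS
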